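import Mathlib

/-!
The Euler operator and Krull's intersection theorem: an ideal stable under enough derivations of a
local ring is zero.
-/

set_option autoImplicit false

namespace Pool.Agent.Helper10.NS

open IsLocalRing

variable {Q : Type} [CommRing Q] [Algebra ℂ Q] {N : ℕ}

theorem euler (m : Ideal Q) (b : Fin N → Q) (hb : Ideal.span (Set.range b) = m)
    (Θ : Derivation ℂ Q Q) (Del : Q) (hΘ : ∀ v, Θ v ∈ m) (hbk : ∀ k, Θ (b k) - Del * b k ∈ m ^ 2) :
    ∀ (r : ℕ) (v : Q), v ∈ m ^ (r + 1) → Θ v - ((r + 1 : ℕ) : Q) * Del * v ∈ m ^ (r + 2) := by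
  have h0 : ∀ v ∈ m, Θ v - Del * v ∈ m ^ 2 := by
    intro v hv
    rw [← hb] at hv
    induction hv using Submodule.span_induction with
    | mem x hx =>
      obtain ⟨k, rfl⟩ := hx
      exact hbk k
    | zero => simp
    | add x y hx hy h1 h2 =>
      have e : Θ (x + y) - Del * (x + y) = (Θ x - Del * x) + (Θ y - Del * y) := by
        rw [map_add]; ring
      rw [e]
      exact Ideal.add_mem _ h1 h2
    | smul c x hx h1 =>
      have e : Θ (c • x) - Del * (c • x) = c * (Θ x - Del * x) + Θ c * x := by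
        rw [smul_eq_mul, Derivation.leibniz, smul_eq_mul, smul_eq_mul]; ring
      rw [e]
      refine Ideal.add_mem _ (Ideal.mul_mem_left _ _ h1) ?_
      rw [sq]
      exact Ideal.mul_mem_mul (hΘ c) (by rw [← hb]; exact hx)
  intro r
  induction r with
  | zero =>
    intro v hv
    have := h0 v (by simpa using hv)
    simpa using this
  | succ r ih =>
    intro v hv
    rw [pow_succ] at hv
    refine Submodule.mul_induction_on hv ?_ ?_
    · intro x hx y hy
      have e : Θ (x * y) - ((r + 1 + 1 : ℕ) : Q) * Del * (x * y) =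
          x * (Θ y - Del * y) + (Θ x - ((r + 1 : ℕ) : Q) * Del * x) * y := by
        rw [Derivation.leibniz, smul_eq_mul, smul_eq_mul]
        push_cast
        ring
      rw [e]
      refine Ideal.add_mem _ ?_ ?_
      · have : m ^ (r + 1 + 2) = m ^ (r + 1) * m ^ 2 := by rw [← pow_add]
        rw [this]
        exact Ideal.mul_mem_mul hx (h0 y hy)
      · have : m ^ (r + 1 + 2) = m ^ (r + 2) * m := by rw [← pow_succ]
        rw [this]
        exact Ideal.mul_mem_mul (ih x hx) hy
    · intro x y hx hy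
      have e : Θ (x + y) - ((r + 1 + 1 : ℕ) : Q) * Del * (x + y) =
          (Θ x - ((r + 1 + 1 : ℕ) : Q) * Del * x) +
          (Θ y - ((r + 1 + 1 : ℕ) : Q) * Del * y) := by
        rw [map_add]; ring
      rw [e]
      exact Ideal.add_mem _ hx hy

/-- **The abstract end of S1a.** -/
theorem kr [IsLocalRing Q] [IsNoetherianRing Q] (b : Fin N → Q)
    (hb : Ideal.span (Set.range b) = maximalIdeal Q) {Del : Q} (hDel : IsUnit Del)
    (D : Fin N → Derivation ℂ Q Q) (I : Ideal Q) (hI : I ≤ maximalIdeal Q)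
    (hD : ∀ i, ∀ g ∈ I, D i g ∈ I)
    (hDb : ∀ i k, D i (b k) - (if i = k then Del else 0) ∈ I) : I = ⊥ := by
  classical
  set m := maximalIdeal Q with hm
  have hbm : ∀ i, b i ∈ m := fun i => by
    rw [← hb]; exact Ideal.subset_span ⟨i, rfl⟩
  let Θ : Derivation ℂ Q Q := ∑ i, b i • D i
  have hΘe : ∀ v, Θ v = ∑ i, b i * D i v := by
    intro v
    have hg : ∀ s : Finset (Fin N), (∑ i ∈ s, b i • D i) v = ∑ i ∈ s, b i * D i v := by
      intro s
      induction s using Finset.induction_on with
      | empty => simp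
      | insert a s ha ih =>
        rw [Finset.sum_insert ha, Finset.sum_insert ha, Derivation.add_apply, ih]
        rfl
    exact hg Finset.univ
  have hΘ : ∀ v, Θ v ∈ m := fun v => by
    rw [hΘe]
    exact Ideal.sum_mem _ fun i _ => Ideal.mul_mem_right _ _ (hbm i)
  have hbk : ∀ k, Θ (b k) - Del * b k ∈ m ^ 2 := by
    intro k
    have e : Θ (b k) - Del * b k = ∑ i, b i * (D i (b k) - if i = k then Del else 0) := by
      rw [hΘe]
      simp only [mul_sub, Finset.sum_sub_distrib, mul_ite, mul_zero, Finset.sum_ite_eq',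
        Finset.mem_univ, if_true]
      ring
    rw [e, sq]
    exact Ideal.sum_mem _ fun i _ => Ideal.mul_mem_mul (hbm i) (hI (hDb i k))
  have he := euler m b hb Θ Del hΘ hbk
  have hpow : ∀ r : ℕ, I ≤ m ^ (r + 1) := by
    intro r
    induction r with
    | zero => simpa using hI
    | succ r ih =>
      intro g hg
      have h1 := he r g (ih hg)
      have h2 : Θ g ∈ m ^ (r + 2) := by
        rw [hΘe]
        refine Ideal.sum_mem _ fun i _ => ?_
        have : m ^ (r + 2) = m * m ^ (r + 1) := by rw [← pow_succ']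
        rw [this]
        exact Ideal.mul_mem_mul (hbm i) (ih (hD i g hg))
      have h3 : ((r + 1 : ℕ) : Q) * Del * g ∈ m ^ (r + 2) := by
        have := Ideal.sub_mem _ h2 h1
        simpa using this
      have hu : IsUnit (((r + 1 : ℕ) : Q) * Del) := by
        refine IsUnit.mul ?_ hDel
        have : ((r + 1 : ℕ) : Q) = algebraMap ℂ Q ((r + 1 : ℕ) : ℂ) := by simp
        rw [this]
        exact (IsUnit.mk0 _ (by exact_mod_cast Nat.succ_ne_zero r)).map _
      exact (Ideal.unit_mul_mem_iff_mem _ hu).1 h3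
  have hinf : (⨅ i : ℕ, m ^ i) = ⊥ :=
    Ideal.iInf_pow_eq_bot_of_isLocalRing m (maximalIdeal.isMaximal Q).ne_top
  rw [eq_bot_iff, ← hinf]
  refine le_iInf fun i => ?_
  exact (hpow i).trans (Ideal.pow_le_pow_right (Nat.le_succ i))

end Pool.Agent.Helper10.NS
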